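import Pool.Agent.L7h64.HF.Stm2

set_option autoImplicit false

/-!
# Project HF, second step, part EX2: two special angles of a piece, those over `s`, `s'` not counted
-/

namespace Pool.Agent.L7h79.HF

open Pool.Agent.L7h28.HF Pool.Agent.L7h64.HF Set

theorem s_EX2 (h1 : S_EXM) (h2 : S_LA) (h3 : S_SUB) : S_EX2 := by
  intro a b c K α s t s' ha hNS hK hα hβ hαs hst hts hs'π hds hds' hpos hneg hex
  have hG : ∀ θ τ : ℝ, (θ, τ) ∈ K → G a b c θ τ = 0 := fun θ τ h => hK.sub (θ, τ) h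
  obtain ⟨θ1, θ2, e1, e2, e3, sp1, sp2, hm⟩ := h1 a b c K α ha hNS hK hα hβ hex
  -- (i)
  have hi : ∀ β τ : ℝ, s < β → β < s' → (β, (0:ℝ)) ∈ K → (β, τ) ∈ K → 0 < τ →
      θ1 < β ∧ β < θ2 ∧ SpX a b c s s' K β := by
    intro β τ b1 b2 b3 b4 b5
    have hd : dsc a b c β ≠ 0 := (hpos β b1 b2).ne'
    obtain ⟨δ, hδ, hh⟩ := h2 a b c K ha hK β τ b4 b5 hd τ b5
    have hsp : SpX a b c s s' K β := by
      left
      refine ⟨b3, ?_⟩
      have h4 : G a b c β 0 = 0 := hG β 0 b3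
      unfold G at h4
      linarith
    refine ⟨?_, ?_, hsp⟩
    · have he : 0 < min (δ / 2) (β - α) := lt_min (by linarith) (by linarith)
      have he1 := min_le_left (δ / 2) (β - α)
      have he2 := min_le_right (δ / 2) (β - α)
      obtain ⟨τ', hτ', hk⟩ := hh (β - min (δ / 2) (β - α))
        (by rw [abs_lt]; constructor <;> linarith)
      have h4 := (abs_lt.1 hτ').1
      have h5 := (hm _ _ hk (by linarith) (by linarith) (by linarith)).1
      linarith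
    · have he : 0 < min (δ / 2) (α + Real.pi - β) := lt_min (by linarith) (by linarith)
      have he1 := min_le_left (δ / 2) (α + Real.pi - β)
      have he2 := min_le_right (δ / 2) (α + Real.pi - β)
      obtain ⟨τ', hτ', hk⟩ := hh (β + min (δ / 2) (α + Real.pi - β))
        (by rw [abs_lt]; constructor <;> linarith)
      have h4 := (abs_lt.1 hτ').1
      have h5 := (hm _ _ hk (by linarith) (by linarith) (by linarith)).2
      linarith
  -- SUB for `s`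
  have hs : (∃ τ : ℝ, 0 < τ ∧ (s, τ) ∈ K) → ∃ β τ : ℝ, s < β ∧ β < t ∧ (β, (0:ℝ)) ∈ K ∧
      (β, τ) ∈ K ∧ 0 < τ := by
    rintro ⟨τ0, t1, t2⟩
    obtain ⟨u, τ, u1, u2, u3, u4, u5⟩ := h3 a b c K s t τ0 ha hK hst.ne t1 t2 hds
      (fun u hu hu1 => hpos _ (by nlinarith) (by nlinarith)) hneg
    exact ⟨s + u * (t - s), τ, by nlinarith, by nlinarith, u3, u5, u4⟩
  have hs2 : (∃ τ : ℝ, 0 < τ ∧ (s', τ) ∈ K) → ∃ β τ : ℝ, t < β ∧ β < s' ∧ (β, (0:ℝ)) ∈ K ∧
      (β, τ) ∈ K ∧ 0 < τ := by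
    rintro ⟨τ0, t1, t2⟩
    obtain ⟨u, τ, u1, u2, u3, u4, u5⟩ := h3 a b c K s' t τ0 ha hK hts.ne' t1 t2 hds'
      (fun u hu hu1 => hpos _ (by nlinarith) (by nlinarith)) hneg
    exact ⟨s' + u * (t - s'), τ, by nlinarith, by nlinarith, u3, u5, u4⟩
  by_cases c1 : ∃ τ : ℝ, 0 < τ ∧ (s, τ) ∈ K
  · obtain ⟨β, τ, p1, p2, p3, p4, p5⟩ := hs c1
    obtain ⟨q1, q2, q3⟩ := hi β τ p1 (by linarith) p3 p4 p5
    by_cases c2 : ∃ τ : ℝ, 0 < τ ∧ (s', τ) ∈ K
    · -- (ii)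
      obtain ⟨β', τ', p1', p2', p3', p4', p5'⟩ := hs2 c2
      obtain ⟨q1', q2', q3'⟩ := hi β' τ' (by linarith) p2' p3' p4' p5'
      exact ⟨β, β', by linarith, by linarith, by linarith, q3, q3'⟩
    · -- (iii)
      have hX : ∀ θ, θ ≠ s → Sp a b c K θ → SpX a b c s s' K θ := by
        intro θ hθ h
        rcases h with h | ⟨τ, g1, g2, g3⟩
        · exact Or.inl h
        · refine Or.inr ⟨hθ, ?_, τ, g1, g2, g3⟩
          rintro rfl
          exact c2 ⟨τ, g1, g2⟩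
      by_cases hc : θ1 = s
      · exact ⟨β, θ2, by linarith, q2, e3, q3, hX θ2 (by
          intro h'; linarith) sp2⟩
      · exact ⟨θ1, β, e1, q1, by linarith, hX θ1 hc sp1, q3⟩
  · by_cases c2 : ∃ τ : ℝ, 0 < τ ∧ (s', τ) ∈ K
    · -- (iv)
      obtain ⟨β', τ', p1', p2', p3', p4', p5'⟩ := hs2 c2
      obtain ⟨q1', q2', q3'⟩ := hi β' τ' (by linarith) p2' p3' p4' p5'
      have hX : ∀ θ, θ ≠ s' → Sp a b c K θ → SpX a b c s s' K θ := by
        intro θ hθ h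
        rcases h with h | ⟨τ, g1, g2, g3⟩
        · exact Or.inl h
        · refine Or.inr ⟨?_, hθ, τ, g1, g2, g3⟩
          rintro rfl
          exact c1 ⟨τ, g1, g2⟩
      by_cases hc : θ2 = s'
      · exact ⟨θ1, β', e1, q1', by linarith, hX θ1 (by intro h'; linarith) sp1, q3'⟩
      · exact ⟨β', θ2, by linarith, q2', e3, q3', hX θ2 hc sp2⟩
    · -- (v)
      have hX : ∀ θ, Sp a b c K θ → SpX a b c s s' K θ := by
        intro θ h
        rcases h with h | ⟨τ, g1, g2, g3⟩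
        · exact Or.inl h
        · refine Or.inr ⟨?_, ?_, τ, g1, g2, g3⟩
          · rintro rfl
            exact c1 ⟨τ, g1, g2⟩
          · rintro rfl
            exact c2 ⟨τ, g1, g2⟩
      exact ⟨θ1, θ2, e1, e2, e3, hX θ1 sp1, hX θ2 sp2⟩

end Pool.Agent.L7h79.HF
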