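import Pool.Agent.L7h28.HF.Stm

set_option autoImplicit false

/-!
# Project HF (helper28, MP_b7f146_ag), part EXT: the first and the last angle of a piece
-/

namespace Pool.Agent.L7h79.HF

open Pool.Agent.L7h28.HF Set

lemma frm_abs (n : ℕ) (h : ℕ → ℝ) (θ : ℝ) :
    |frm n h θ| ≤ ∑ i ∈ Finset.range (n + 1), |h i| := by
  unfold frm
  refine (Finset.abs_sum_le_sum_abs _ _).trans (Finset.sum_le_sum fun i _ => ?_)
  rw [abs_mul, abs_mul, abs_pow, abs_pow]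
  have h1 := pow_le_one₀ (n := i) (abs_nonneg (Real.cos θ)) (Real.abs_cos_le_one θ)
  have h2 := pow_le_one₀ (n := n - i) (abs_nonneg (Real.sin θ)) (Real.abs_sin_le_one θ)
  have h3 : 0 ≤ |Real.cos θ| ^ i := by positivity
  have h4 : 0 ≤ |Real.sin θ| ^ (n - i) := by positivity
  have h5 := abs_nonneg (h i)
  calc |h i| * |Real.cos θ| ^ i * |Real.sin θ| ^ (n - i) ≤ |h i| * 1 * 1 := by
        gcongr
    _ = |h i| := by ring

lemma dsc_eq (a : ℝ) (b c : ℕ → ℝ) (θ τ : ℝ) (h : G a b c θ τ = 0) :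
    dsc a b c θ = (2 * a * τ ^ 4 + frm 4 b θ) ^ 2 := by
  unfold dsc
  unfold G at h
  have e : frm 8 c θ = -(a * τ ^ 8 + frm 4 b θ * τ ^ 4) := by linarith
  rw [e]
  ring

lemma tau_le (a : ℝ) (b c : ℕ → ℝ) (ha : a ≠ 0) :
    ∃ T : ℝ, ∀ θ τ, 0 ≤ τ → G a b c θ τ = 0 → τ ≤ T := by
  set M := ∑ i ∈ Finset.range (4 + 1), |b i| with hMd
  set N := ∑ i ∈ Finset.range (8 + 1), |c i| with hNd
  have hM : 0 ≤ M := Finset.sum_nonneg fun _ _ => abs_nonneg _
  have hN : 0 ≤ N := Finset.sum_nonneg fun _ _ => abs_nonneg _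
  have ha' : 0 < |a| := abs_pos.2 ha
  refine ⟨1 + (M + N) / |a|, fun θ τ hτ hG => ?_⟩
  by_contra hcon
  push Not at hcon
  have h0 : 0 ≤ (M + N) / |a| := by positivity
  have h1 : 1 < τ := by linarith
  have h2 : M + N < |a| * τ := by
    have h : (M + N) / |a| < τ := by linarith
    rw [div_lt_iff₀ ha'] at h
    linarith
  have h3 : |a| * τ ^ 8 ≤ M * τ ^ 4 + N := by
    have e : a * τ ^ 8 = -(frm 4 b θ * τ ^ 4 + frm 8 c θ) := by
      unfold G at hG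
      linarith
    have e2 : |a| * τ ^ 8 = |frm 4 b θ * τ ^ 4 + frm 8 c θ| := by
      rw [← abs_neg (frm 4 b θ * τ ^ 4 + frm 8 c θ), ← e, abs_mul,
        abs_of_nonneg (by positivity : 0 ≤ τ ^ 8)]
    rw [e2]
    refine (abs_add_le _ _).trans (add_le_add ?_ (frm_abs 8 c θ))
    rw [abs_mul, abs_of_nonneg (by positivity : 0 ≤ τ ^ 4)]
    exact mul_le_mul_of_nonneg_right (frm_abs 4 b θ) (by positivity)
  have h4 : (1:ℝ) ≤ τ ^ 4 := one_le_pow₀ h1.le
  have h5 : τ ^ 4 ≤ τ ^ 7 := pow_le_pow_right₀ h1.le (by norm_num)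
  have h6 : (M + N) * τ ^ 7 < |a| * τ * τ ^ 7 := mul_lt_mul_of_pos_right h2 (by positivity)
  have h7 : |a| * τ * τ ^ 7 = |a| * τ ^ 8 := by ring
  have h8 := mul_le_mul_of_nonneg_left h5 hM
  have h9 := mul_le_mul_of_nonneg_left (h4.trans h5) hN
  rw [h7] at h6
  linarith

theorem s_EXT (h1 : S_LA) (h2 : S_LB) (h3 : S_LC) : S_EXT := by
  intro a b c K α ha hNS hK hα hβ hex
  obtain ⟨T, hT⟩ := tau_le a b c ha
  have hG : ∀ θ τ : ℝ, (θ, τ) ∈ K → G a b c θ τ = 0 := fun θ τ h => hK.sub (θ, τ) h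
  set L : Set (ℝ × ℝ) := K ∩ (Icc α (α + Real.pi) ×ˢ Icc 0 T) with hLdef
  have hLc : IsCompact L := (isCompact_Icc.prod isCompact_Icc).inter_left hK.closed
  have hmem : ∀ θ τ, (θ, τ) ∈ K → α ≤ θ → θ ≤ α + Real.pi → 0 ≤ τ → (θ, τ) ∈ L := by
    intro θ τ hp h4 h5 h6
    exact ⟨hp, ⟨h4, h5⟩, ⟨h6, hT θ τ h6 (hG θ τ hp)⟩⟩
  have hne : L.Nonempty := by
    obtain ⟨⟨θ, τ⟩, hp, h4, h5, h6⟩ := hex
    exact ⟨_, hmem θ τ hp h4 h5 h6⟩
  have hstrict : ∀ θ τ, (θ, τ) ∈ L → α < θ ∧ θ < α + Real.pi := by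
    rintro θ τ ⟨hp, ⟨h4, h5⟩, -⟩
    have h4' : α ≤ θ := h4
    have h5' : θ ≤ α + Real.pi := h5
    have hd0 : 0 ≤ dsc a b c θ := by
      rw [dsc_eq a b c θ τ (hG θ τ hp)]
      positivity
    constructor
    · rcases h4'.eq_or_lt with h | h
      · rw [← h] at hd0
        exact absurd hα (not_lt.2 hd0)
      · exact h
    · rcases h5'.eq_or_lt with h | h
      · rw [h] at hd0
        exact absurd hβ (not_lt.2 hd0)
      · exact h
  have hext : ∀ θ τ, (θ, τ) ∈ L → 0 < τ → dsc a b c θ ≠ 0 →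
      (∃ q ∈ L, q.1 < θ) ∧ (∃ q ∈ L, θ < q.1) := by
    intro θ τ hp hτ hd
    obtain ⟨s1, s2⟩ := hstrict θ τ hp
    obtain ⟨δ, hδ, hh⟩ := h1 a b c K ha hK θ τ hp.1 hτ hd τ hτ
    constructor
    · have he : 0 < min (δ / 2) (θ - α) := lt_min (by linarith) (by linarith)
      have he1 := min_le_left (δ / 2) (θ - α)
      have he2 := min_le_right (δ / 2) (θ - α)
      obtain ⟨τ', hτ', hk⟩ := hh (θ - min (δ / 2) (θ - α))
        (by rw [abs_lt]; constructor <;> linarith)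
      have h4 := (abs_lt.1 hτ').1
      exact ⟨(θ - min (δ / 2) (θ - α), τ'),
        hmem _ _ hk (by linarith) (by linarith) (by linarith), by
          show θ - min (δ / 2) (θ - α) < θ
          linarith⟩
    · have he : 0 < min (δ / 2) (α + Real.pi - θ) := lt_min (by linarith) (by linarith)
      have he1 := min_le_left (δ / 2) (α + Real.pi - θ)
      have he2 := min_le_right (δ / 2) (α + Real.pi - θ)
      obtain ⟨τ', hτ', hk⟩ := hh (θ + min (δ / 2) (α + Real.pi - θ))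
        (by rw [abs_lt]; constructor <;> linarith)
      have h4 := (abs_lt.1 hτ').1
      exact ⟨(θ + min (δ / 2) (α + Real.pi - θ), τ'),
        hmem _ _ hk (by linarith) (by linarith) (by linarith), by
          show θ < θ + min (δ / 2) (α + Real.pi - θ)
          linarith⟩
  have hsp : ∀ θ τ, (θ, τ) ∈ L → ((∀ q ∈ L, θ ≤ q.1) ∨ (∀ q ∈ L, q.1 ≤ θ)) →
      Sp a b c K θ := by
    intro θ τ hp hm
    have hτ : 0 ≤ τ := hp.2.2.1
    rcases hτ.eq_or_lt with h | h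
    · left
      subst h
      refine ⟨hp.1, ?_⟩
      have h4 : G a b c θ 0 = 0 := hG θ 0 hp.1
      unfold G at h4
      linarith
    · right
      refine ⟨τ, h, hp.1, ?_⟩
      by_contra hd
      obtain ⟨⟨q, hq, hq'⟩, ⟨r, hr, hr'⟩⟩ := hext θ τ hp h hd
      rcases hm with hm | hm
      · exact absurd hq' (not_lt.2 (hm q hq))
      · exact absurd hr' (not_lt.2 (hm r hr))
  have hoth : ∀ θ τ, (θ, τ) ∈ L → ∃ q ∈ L, q.1 ≠ θ := by
    intro θ τ hp
    obtain ⟨s1, s2⟩ := hstrict θ τ hp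
    have hτ : 0 ≤ τ := hp.2.2.1
    have he : 0 < min (θ - α) (α + Real.pi - θ) := lt_min (by linarith) (by linarith)
    have he1 := min_le_left (θ - α) (α + Real.pi - θ)
    have he2 := min_le_right (θ - α) (α + Real.pi - θ)
    rcases hτ.eq_or_lt with h | h
    · subst h
      obtain ⟨θ', τ', n1, n2, n3, n4, n5⟩ := h3 a b c K ha hNS hK θ hp.1 _ he
      have n6 := abs_lt.1 n2
      exact ⟨(θ', τ'), hmem _ _ n5 (by linarith [n6.1]) (by linarith [n6.2]) n3.le, n1⟩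
    · by_cases hd : dsc a b c θ = 0
      · obtain ⟨θ', τ', n1, n2, n3, n5⟩ := h2 a b c K ha hNS hK θ τ hp.1 h hd
          (min (min (θ - α) (α + Real.pi - θ)) τ) (lt_min he h)
        have n6 := abs_lt.1 n2
        have n7 := abs_lt.1 n3
        have m1 := min_le_left (min (θ - α) (α + Real.pi - θ)) τ
        have m2 := min_le_right (min (θ - α) (α + Real.pi - θ)) τ
        exact ⟨(θ', τ'), hmem _ _ n5 (by linarith [n6.1]) (by linarith [n6.2])
          (by linarith [n7.1]), n1⟩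
      · obtain ⟨⟨q, hq, hq'⟩, -⟩ := hext θ τ hp h hd
        exact ⟨q, hq, hq'.ne⟩
  obtain ⟨⟨θ1, τ1⟩, hp1, hmin⟩ := hLc.exists_isMinOn hne continuous_fst.continuousOn
  obtain ⟨⟨θ2, τ2⟩, hp2, hmax⟩ := hLc.exists_isMaxOn hne continuous_fst.continuousOn
  have hmin' : ∀ q ∈ L, θ1 ≤ q.1 := fun q hq => hmin hq
  have hmax' : ∀ q ∈ L, q.1 ≤ θ2 := fun q hq => hmax hq
  refine ⟨θ1, θ2, (hstrict _ _ hp1).1, ?_, (hstrict _ _ hp2).2, hsp _ _ hp1 (Or.inl hmin'),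
    hsp _ _ hp2 (Or.inr hmax')⟩
  obtain ⟨q, hq, hq'⟩ := hoth θ1 τ1 hp1
  exact lt_of_lt_of_le (lt_of_le_of_ne (hmin' q hq) (Ne.symm hq')) (hmax' q hq)

end Pool.Agent.L7h79.HF
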