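import Pool.Agent.L7h64.HF.Stm2
import Pool.Agent.L7h79.HF.Ext

set_option autoImplicit false

/-!
# Project HF, second step, part SUB: the two branches from a branch point
-/

namespace Pool.Agent.L7h79.HF

open Pool.Agent.L7h28.HF Pool.Agent.L7h64.HF Set

lemma frm_cont (n : ℕ) (h : ℕ → ℝ) : Continuous (frm n h) := by
  unfold frm
  fun_prop

lemma dsc_cont (a : ℝ) (b c : ℕ → ℝ) : Continuous (dsc a b c) := by
  have h1 := frm_cont 4 b
  have h2 := frm_cont 8 c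
  unfold dsc
  fun_prop

lemma path_mem {a : ℝ} {b c : ℕ → ℝ} {K : Set (ℝ × ℝ)} (hK : Pc a b c K) (x y : ℝ → ℝ)
    (hx : Continuous x) (hy : Continuous y) (u0 : ℝ) (h0 : 0 ≤ u0)
    (h1 : (x 0, y 0) ∈ K) (h2 : ∀ u, 0 ≤ u → u ≤ u0 → G a b c (x u) (y u) = 0) :
    ∀ u, 0 ≤ u → u ≤ u0 → (x u, y u) ∈ K := by
  intro u hu1 hu2
  by_contra hc
  have hpre : IsPreconnected ((fun u => (x u, y u)) '' Icc 0 u0) :=
    isPreconnected_Icc.image _ (hx.prodMk hy).continuousOn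
  obtain ⟨p, hp, hp1, hp2⟩ := isPreconnected_closed_iff.1 hpre K _ hK.closed hK.rest (by
      rintro _ ⟨v, ⟨hv1, hv2⟩, rfl⟩
      by_cases hv : (x v, y v) ∈ K
      · exact Or.inl hv
      · exact Or.inr ⟨h2 v hv1 hv2, hv⟩)
    ⟨(x 0, y 0), ⟨0, ⟨le_rfl, h0⟩, rfl⟩, h1⟩
    ⟨(x u, y u), ⟨u, ⟨hu1, hu2⟩, rfl⟩, h2 u hu1 hu2, hc⟩
  exact hp2.2 hp1

lemma pow4 {y : ℝ} (h : 0 ≤ y) : √(√y) ^ 4 = y := by
  have e : √(√y) ^ 4 = (√(√y) ^ 2) ^ 2 := by ring
  rw [e, Real.sq_sqrt (Real.sqrt_nonneg _), Real.sq_sqrt h]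

lemma root_aux (a B C y D : ℝ) (ha : a ≠ 0) (hD : D = B ^ 2 - 4 * a * C) (h0 : 0 ≤ D)
    (h : (y - -B / (2 * a)) ^ 2 = (√D / (2 * |a|)) ^ 2) : a * y ^ 2 + B * y + C = 0 := by
  have h1 : (√D / (2 * |a|)) ^ 2 = D / (4 * a ^ 2) := by
    rw [div_pow, Real.sq_sqrt h0, mul_pow, sq_abs]
    norm_num
  rw [h1] at h
  have h2 : (2 * a * y + B) ^ 2 = (y - -B / (2 * a)) ^ 2 * (4 * a ^ 2) := by
    field_simp
    ring
  have h3 : (2 * a * y + B) ^ 2 = D := by
    rw [h2, h]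
    field_simp
  have h4 : 4 * a * (a * y ^ 2 + B * y + C) = 0 := by
    rw [hD] at h3
    linear_combination h3
  exact (mul_eq_zero.1 h4).resolve_left (by simpa using ha)

lemma G_root (a : ℝ) (b c : ℕ → ℝ) (ha : a ≠ 0) (θ y : ℝ) (hy : 0 ≤ y) (h0 : 0 ≤ dsc a b c θ)
    (h : (y - -(frm 4 b θ) / (2 * a)) ^ 2 = (√(dsc a b c θ) / (2 * |a|)) ^ 2) :
    G a b c θ (√(√y)) = 0 := by
  have h1 := root_aux a (frm 4 b θ) (frm 8 c θ) y (dsc a b c θ) ha rfl h0 h
  unfold G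
  have e : √(√y) ^ 8 = (√(√y) ^ 4) ^ 2 := by ring
  rw [e, pow4 hy]
  exact h1

theorem s_SUB : S_SUB := by
  intro a b c K s t τ0 ha hK hst hτ0 hp0 hds hpos hneg
  have ha' : 0 < |a| := abs_pos.2 ha
  have cθ : Continuous fun u : ℝ => s + u * (t - s) := by fun_prop
  obtain ⟨q, hq⟩ : ∃ q : ℝ → ℝ, q = fun u => -(frm 4 b (s + u * (t - s))) / (2 * a) := ⟨_, rfl⟩
  obtain ⟨r, hr⟩ : ∃ r : ℝ → ℝ, r = fun u => √(dsc a b c (s + u * (t - s))) / (2 * |a|) :=
    ⟨_, rfl⟩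
  have cq : Continuous q := by
    rw [hq]
    exact (((frm_cont 4 b).comp cθ).neg).div_const _
  have cr : Continuous r := by
    rw [hr]
    exact (Real.continuous_sqrt.comp ((dsc_cont a b c).comp cθ)).div_const _
  have hr0 : ∀ u, 0 ≤ r u := fun u => by
    rw [hr]
    positivity
  have hD : ∀ u, 0 ≤ u → u ≤ 1 → 0 ≤ dsc a b c (s + u * (t - s)) := by
    intro u h1 h2
    rcases h1.eq_or_lt with h | h
    · rw [← h, zero_mul, add_zero, hds]
    · exact (hpos u h h2).le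
  have hroot : ∀ u y, 0 ≤ u → u ≤ 1 → 0 ≤ y → (y - q u) ^ 2 = (r u) ^ 2 →
      G a b c (s + u * (t - s)) (√(√y)) = 0 := by
    intro u y h1 h2 h3 h4
    rw [hq, hr] at h4
    exact G_root a b c ha _ y h3 (hD u h1 h2) h4
  -- at `u = 0`
  have hr00 : r 0 = 0 := by
    rw [hr]
    show √(dsc a b c (s + 0 * (t - s))) / (2 * |a|) = 0
    rw [zero_mul, add_zero, hds, Real.sqrt_zero, zero_div]
  have hq0 : q 0 = τ0 ^ 4 := by
    have h1 := dsc_eq a b c s τ0 (hK.sub (s, τ0) hp0)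
    rw [hds] at h1
    have h2 : 2 * a * τ0 ^ 4 + frm 4 b s = 0 := by
      have := h1.symm
      exact pow_eq_zero_iff (two_ne_zero) |>.1 this
    rw [hq]
    show -(frm 4 b (s + 0 * (t - s))) / (2 * a) = τ0 ^ 4
    rw [zero_mul, add_zero]
    field_simp
    linarith
  -- at `u = 1`
  have hm1 : q 1 - r 1 < 0 := by
    by_contra hcon
    push Not at hcon
    have h1 : 0 ≤ (q 1 - r 1) * (q 1 + r 1) := mul_nonneg hcon (by linarith [hr0 1])
    have hd := hD 1 zero_le_one le_rfl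
    have h2 : (q 1 - r 1) * (q 1 + r 1) = a * frm 8 c t / a ^ 2 := by
      have e1 : q 1 = -(frm 4 b t) / (2 * a) := by
        rw [hq]
        show -(frm 4 b (s + 1 * (t - s))) / (2 * a) = _
        rw [one_mul, add_sub_cancel]
      have e2 : r 1 ^ 2 = dsc a b c t / (4 * a ^ 2) := by
        rw [hr]
        show (√(dsc a b c (s + 1 * (t - s))) / (2 * |a|)) ^ 2 = _
        rw [one_mul, add_sub_cancel] at hd ⊢
        rw [div_pow, Real.sq_sqrt hd, mul_pow, sq_abs]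
        norm_num
      have e3 : (q 1 - r 1) * (q 1 + r 1) = q 1 ^ 2 - r 1 ^ 2 := by ring
      rw [e3, e1, e2]
      unfold dsc
      field_simp
      ring
    rw [h2] at h1
    have h3 : a * frm 8 c t / a ^ 2 < 0 := div_neg_of_neg_of_pos hneg (by positivity)
    linarith
  have cm : Continuous fun u => q u - r u := cq.sub cr
  -- the first zero
  have hcomp : IsCompact (Icc (0:ℝ) 1 ∩ {u | q u - r u ≤ 0}) :=
    isCompact_Icc.inter_right (isClosed_le cm continuous_const)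
  obtain ⟨u0, ⟨⟨h0a, h0b⟩, h0c⟩, hleast⟩ := hcomp.exists_isLeast
    ⟨1, ⟨zero_le_one, le_rfl⟩, hm1.le⟩
  have h0c' : q u0 - r u0 ≤ 0 := h0c
  have hm0 : 0 < q 0 - r 0 := by
    rw [hq0, hr00, sub_zero]
    positivity
  have hzero : q u0 - r u0 = 0 := by
    have h1 : (0:ℝ) ∈ (fun u => q u - r u) '' Icc 0 u0 :=
      intermediate_value_Icc' h0a cm.continuousOn ⟨h0c', hm0.le⟩
    obtain ⟨v, ⟨hv1, hv2⟩, hv3⟩ := h1
    have hv3' : q v - r v = 0 := hv3
    have h2 : u0 ≤ v := hleast ⟨⟨hv1, hv2.trans h0b⟩, hv3'.le⟩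
    have h3 : v = u0 := le_antisymm hv2 h2
    rw [← h3]
    exact hv3'
  have hu0 : 0 < u0 := by
    rcases h0a.eq_or_lt with h | h
    · rw [← h] at hzero
      linarith
    · exact h
  have hu1 : u0 < 1 := by
    rcases h0b.eq_or_lt with h | h
    · rw [h] at hzero
      linarith
    · exact h
  have hnn : ∀ u, 0 ≤ u → u ≤ u0 → 0 ≤ q u - r u := by
    intro u h1 h2
    by_contra hcon
    push Not at hcon
    have h3 : u0 ≤ u := hleast ⟨⟨h1, h2.trans h0b⟩, hcon.le⟩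
    have h4 : u = u0 := le_antisymm h2 h3
    rw [h4, hzero] at hcon
    exact lt_irrefl _ hcon
  have hstart : √(√(τ0 ^ 4)) = τ0 := by
    have e : τ0 ^ 4 = (τ0 ^ 2) ^ 2 := by ring
    rw [e, Real.sqrt_sq (by positivity), Real.sqrt_sq hτ0.le]
  have hp1 := path_mem hK (fun u => s + u * (t - s)) (fun u => √(√(q u - r u))) cθ
    (Real.continuous_sqrt.comp (Real.continuous_sqrt.comp cm)) u0 h0a
    (by
      show (s + 0 * (t - s), √(√(q 0 - r 0))) ∈ K
      rw [hq0, hr00, sub_zero, hstart, zero_mul, add_zero]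
      exact hp0)
    (fun u g1 g2 => hroot u _ g1 (g2.trans h0b) (hnn u g1 g2) (by ring))
    u0 h0a le_rfl
  have hp2 := path_mem hK (fun u => s + u * (t - s)) (fun u => √(√(q u + r u))) cθ
    (Real.continuous_sqrt.comp (Real.continuous_sqrt.comp (cq.add cr))) u0 h0a
    (by
      show (s + 0 * (t - s), √(√(q 0 + r 0))) ∈ K
      rw [hq0, hr00, add_zero, hstart, zero_mul, add_zero]
      exact hp0)
    (fun u g1 g2 => hroot u _ g1 (g2.trans h0b)
      (by have := hnn u g1 g2; have := hr0 u; linarith) (by ring))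
    u0 h0a le_rfl
  have hru : 0 < r u0 := by
    rw [hr]
    have := hpos u0 hu0 hu1.le
    show 0 < √(dsc a b c (s + u0 * (t - s))) / (2 * |a|)
    positivity
  refine ⟨u0, √(√(q u0 + r u0)), hu0, hu1, ?_, ?_, hp2⟩
  · have h5 : (s + u0 * (t - s), √(√(q u0 - r u0))) ∈ K := hp1
    rw [hzero, Real.sqrt_zero, Real.sqrt_zero] at h5
    exact h5
  · have : 0 < q u0 + r u0 := by linarith
    positivity

end Pool.Agent.L7h79.HF
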